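import Mathlib

/-! Katz–Tao style sums-differences inequality with exponent 7/4 for five-term progressions:
if `A` contains, for every `d ∈ D`, a five-term progression with difference `d`, then
`|D|^4 ≤ |A|^7`. -/

namespace Pool.Agent.H455R2.Cov

open Finset

/-- Cauchy–Schwarz for fibres. -/
theorem card_sq_le_fiber {α β : Type*} [DecidableEq α] [DecidableEq β] (S : Finset α) (B : Finset β)
    (f : α → β) (hf : ∀ a ∈ S, f a ∈ B) :
    S.card ^ 2 ≤ B.card * ((S ×ˢ S).filter (fun p => f p.1 = f p.2)).card := by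
  classical
  have h1 : S.card = ∑ b ∈ B, (S.filter (fun a => f a = b)).card :=
    card_eq_sum_card_fiberwise hf
  have h2 : ((S ×ˢ S).filter (fun p => f p.1 = f p.2)).card
      = ∑ b ∈ B, (S.filter (fun a => f a = b)).card ^ 2 := by
    rw [card_eq_sum_card_fiberwise (s := (S ×ˢ S).filter (fun p => f p.1 = f p.2)) (t := B)
      (f := fun p => f p.1)]
    · refine sum_congr rfl fun b hb => ?_
      rw [pow_two, ← card_product]
      congr 1
      ext p
      simp only [mem_filter, mem_product]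
      constructor
      · rintro ⟨⟨⟨h1, h2⟩, h3⟩, h4⟩
        exact ⟨⟨h1, h4⟩, ⟨h2, h3 ▸ h4⟩⟩
      · rintro ⟨⟨h1, h4⟩, ⟨h2, h5⟩⟩
        exact ⟨⟨⟨h1, h2⟩, h4.trans h5.symm⟩, h4⟩
    · intro p hp
      simp only [coe_filter, Set.mem_ofPred_eq, mem_product] at hp
      exact hf _ hp.1.1
  rw [h1, h2]
  exact sq_sum_le_card_mul_sum_sq

theorem sd_74 (A D : Finset ℤ) (x : ℤ → ℤ)
    (h : ∀ d ∈ D, ∀ j : ℤ, 0 ≤ j → j ≤ 4 → x d + j * d ∈ A) :
    D.card ^ 4 ≤ A.card ^ 7 := by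
  classical
  -- pairs sharing the point at time 1
  set V : Finset (ℤ × ℤ) := (D ×ˢ D).filter (fun p => x p.1 + 1 * p.1 = x p.2 + 1 * p.2) with hV
  have hV1 : D.card ^ 2 ≤ A.card * V.card :=
    card_sq_le_fiber D A (fun d => x d + 1 * d) (fun d hd => h d hd 1 (by norm_num) (by norm_num))
  set W : Finset ((ℤ × ℤ) × (ℤ × ℤ)) := (V ×ˢ V).filter (fun q =>
    (x q.1.1 + 4 * q.1.1, x q.1.2 + 4 * q.1.2) = (x q.2.1 + 4 * q.2.1, x q.2.2 + 4 * q.2.2))
    with hW
  have hW1 : V.card ^ 2 ≤ (A.card * A.card) * W.card := by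
    have := card_sq_le_fiber V (A ×ˢ A) (fun p => (x p.1 + 4 * p.1, x p.2 + 4 * p.2)) (by
      intro p hp
      simp only [hV, mem_filter, mem_product] at hp
      exact mem_product.2 ⟨h _ hp.1.1 4 (by norm_num) (by norm_num),
        h _ hp.1.2 4 (by norm_num) (by norm_num)⟩)
    rwa [card_product] at this
  have hW2 : W.card ≤ A.card ^ 3 := by
    have : W.card ≤ (A ×ˢ (A ×ˢ A)).card := by
      refine card_le_card_of_injOn (fun q => (x q.2.1 + 3 * q.2.1,
        (x q.2.2 + 2 * q.2.2, x q.1.2 + 0 * q.1.2))) ?_ ?_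
      · intro q hq
        simp only [hW, hV, coe_filter, Set.mem_ofPred_eq, mem_product, mem_filter] at hq
        obtain ⟨⟨⟨⟨h1, h2⟩, h3⟩, ⟨⟨h4, h5⟩, h6⟩⟩, h7⟩ := hq
        simp only [coe_product, Set.mem_prod, mem_coe]
        exact ⟨h _ h4 3 (by norm_num) (by norm_num), h _ h5 2 (by norm_num) (by norm_num),
          h _ h2 0 (by norm_num) (by norm_num)⟩
      · rintro ⟨⟨a, b⟩, ⟨c, d⟩⟩ hq ⟨⟨a', b'⟩, ⟨c', d'⟩⟩ hq' he
        simp only [hW, hV, coe_filter, Set.mem_ofPred_eq, mem_product, mem_filter,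
          Prod.mk.injEq] at hq hq' he
        obtain ⟨⟨⟨-, h1⟩, ⟨-, h2⟩⟩, h3, h4⟩ := hq
        obtain ⟨⟨⟨-, h1'⟩, ⟨-, h2'⟩⟩, h3', h4'⟩ := hq'
        obtain ⟨g1, g2, g3⟩ := he
        have ha : a = a' := by linarith
        subst ha
        have hb : b = b' := by linarith
        have hc : c = c' := by linarith
        have hd : d = d' := by linarith
        rw [hb, hc, hd]
    simpa [card_product, pow_succ, mul_assoc] using this
  have e1 : D.card ^ 4 ≤ A.card ^ 2 * V.card ^ 2 := by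
    calc D.card ^ 4 = (D.card ^ 2) ^ 2 := by ring
      _ ≤ (A.card * V.card) ^ 2 := Nat.pow_le_pow_left hV1 2
      _ = _ := by ring
  calc D.card ^ 4 ≤ A.card ^ 2 * V.card ^ 2 := e1
    _ ≤ A.card ^ 2 * ((A.card * A.card) * W.card) := Nat.mul_le_mul_left _ hW1
    _ ≤ A.card ^ 2 * ((A.card * A.card) * A.card ^ 3) := by gcongr
    _ = A.card ^ 7 := by ring

end Pool.Agent.H455R2.Cov
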